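import Pool.Agent.Run7.h198.QI.Defs

set_option autoImplicit false

namespace Pool.Agent.Run7.h198.QI

open Finset

theorem bdd (r n : ℕ) : BddAbove {m | ∃ F : Finset (Finset (Fin n)), QI n r F ∧ F.card = m} := by
  refine ⟨Fintype.card (Finset (Fin n)), ?_⟩
  rintro m ⟨F, -, rfl⟩
  exact Finset.card_le_univ F

theorem le_Mr {r n : ℕ} {F : Finset (Finset (Fin n))} (h : QI n r F) : F.card ≤ Mr r n :=
  le_csSup (bdd r n) ⟨F, h, rfl⟩

theorem exists_Mr (r n : ℕ) : ∃ F : Finset (Finset (Fin n)), QI n r F ∧ F.card = Mr r n :=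
  Nat.sSup_mem (s := {m | ∃ F : Finset (Finset (Fin n)), QI n r F ∧ F.card = m})
    ⟨0, ∅, by intro A hA; simp at hA, rfl⟩ (bdd r n)

theorem fin (hUP : S_UP) (hGS : S_GS) (hEXT : S_EXT) (hCEN : S_CEN) (hNUM : S_NUM) :
    ∀ r n : ℕ, 1 ≤ r → 4 * r ≤ n →
      n.choose (n / 2) ≤ 4 ^ r * 2 ^ (r - 1) * n ^ (r - 1) * Mr r n ∧
      n ^ (r - 1) * Mr r n ≤ 2 * 4 ^ (r - 1) * (r - 1).factorial * n.choose (n / 2) := by
  intro r n hr hn
  constructor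
  · obtain ⟨m, rfl⟩ : ∃ m, n = m + 2 * r := ⟨n - 2 * r, by omega⟩
    have hm : m ≠ 0 := by omega
    obtain ⟨q, hq, hq1, hq2⟩ := Nat.exists_prime_lt_and_le_two_mul m hm
    obtain ⟨F, hF1, hF2, hF3⟩ := hGS m (m / 2) r q hr hq hq1.le
    obtain ⟨G, hG1, hG2⟩ := hEXT m r (m / 2) F hF1 hF2
    have h1 := hCEN (m + 2 * r) r (by omega)
    have h2 : m + 2 * r - 2 * r = m := by omega
    rw [h2] at h1
    have h3 : q ^ (r - 1) ≤ (2 * (m + 2 * r)) ^ (r - 1) := Nat.pow_le_pow_left (by omega) _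
    have h4 : F.card ≤ Mr r (m + 2 * r) := hG2 ▸ le_Mr hG1
    calc (m + 2 * r).choose ((m + 2 * r) / 2) ≤ 4 ^ r * m.choose (m / 2) := h1
      _ ≤ 4 ^ r * (F.card * q ^ (r - 1)) := Nat.mul_le_mul_left _ hF3
      _ ≤ 4 ^ r * (Mr r (m + 2 * r) * (2 * (m + 2 * r)) ^ (r - 1)) :=
          Nat.mul_le_mul_left _ (Nat.mul_le_mul h4 h3)
      _ = 4 ^ r * 2 ^ (r - 1) * (m + 2 * r) ^ (r - 1) * Mr r (m + 2 * r) := by
          rw [Nat.mul_pow]; ring
  · obtain ⟨F, hF, hF2⟩ := exists_Mr r n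
    have h1 := hUP n r F hr hF
    have h2 := hNUM n r hr hn
    rw [← hF2]
    calc n ^ (r - 1) * F.card
        ≤ (4 ^ (r - 1) * (r - 1).factorial * ((n + 1) / 2).choose (r - 1)) * F.card :=
          Nat.mul_le_mul_right _ h2
      _ = 4 ^ (r - 1) * (r - 1).factorial * (F.card * ((n + 1) / 2).choose (r - 1)) := by ring
      _ ≤ 4 ^ (r - 1) * (r - 1).factorial * (2 * n.choose (n / 2)) := Nat.mul_le_mul_left _ h1
      _ = 2 * 4 ^ (r - 1) * (r - 1).factorial * n.choose (n / 2) := by ring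

end Pool.Agent.Run7.h198.QI
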