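import Pool.Agent.Run7.h198.QI.Defs

set_option autoImplicit false

namespace Pool.Agent.Run7.h198.QI

open Finset

theorem t_UP : S_UP1 → S_UP := by
  classical
  intro h1 n r F hr hF
  set F1 := F.filter (fun A => (n + 1) / 2 ≤ A.card) with hF1
  set F0 := F.filter (fun A => ¬ (n + 1) / 2 ≤ A.card) with hF0
  set F2 := F0.image (fun A => Aᶜ) with hF2
  have hc : F1.card + F0.card = F.card := Finset.card_filter_add_card_filter_not _
  have hc2 : F2.card = F0.card := Finset.card_image_of_injective _ compl_injective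
  have a1 := h1 n r ((n + 1) / 2) F1 hr
    (fun A hA => (Finset.mem_filter.1 hA).2)
    (fun A hA B hB hAB => (hF A (Finset.mem_filter.1 hA).1 B (Finset.mem_filter.1 hB).1 hAB).2.1)
  have a2 := h1 n r ((n + 1) / 2) F2 hr
    (by
      intro A hA
      rw [hF2, Finset.mem_image] at hA
      obtain ⟨B, hB, rfl⟩ := hA
      have h3 := (Finset.mem_filter.1 hB).2
      rw [Finset.card_compl, Fintype.card_fin]
      omega)
    (by
      intro A hA B hB hAB
      rw [hF2, Finset.mem_image] at hA hB
      obtain ⟨A', hA', rfl⟩ := hA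
      obtain ⟨B', hB', rfl⟩ := hB
      rw [compl_compl]
      exact (hF A' (Finset.mem_filter.1 hA').1 B' (Finset.mem_filter.1 hB').1
        (fun h => hAB (by rw [h]))).2.2.1)
  rw [hc2] at a2
  rw [← hc, Nat.add_mul]
  omega

end Pool.Agent.Run7.h198.QI
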