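import Pool.Agent.Run7.h198.QI.Defs

set_option autoImplicit false

namespace Pool.Agent.Run7.h198.QI

open Finset

theorem t_UP1 : S_UP1 := by
  classical
  intro n r h F hr hh hF
  set G : Finset (Fin n) → Finset (Finset (Fin n)) := fun A => (A.powersetCard (r - 1)).image (fun R => A \ R)
    with hG
  have hcard : ∀ A, (G A).card = A.card.choose (r - 1) := by
    intro A
    rw [hG]
    rw [Finset.card_image_of_injOn, Finset.card_powersetCard]
    intro R hR R' hR' hRR
    rw [Finset.mem_coe, Finset.mem_powersetCard] at hR hR'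
    have h1 : A \ (A \ R) = A \ (A \ R') := by
      simp only at hRR
      rw [hRR]
    rwa [Finset.sdiff_sdiff_eq_self hR.1, Finset.sdiff_sdiff_eq_self hR'.1] at h1
  have key : ∀ A ∈ F, ∀ B ∈ F, ∀ U ∈ G A, ∀ V ∈ G B, U ⊆ V → A = B := by
    intro A hA B hB U hU V hV hUV
    rw [hG, Finset.mem_image] at hU hV
    obtain ⟨R, hR, rfl⟩ := hU
    obtain ⟨R', hR', rfl⟩ := hV
    rw [Finset.mem_powersetCard] at hR hR'
    by_contra hAB
    have h1 := hF A hA B hB hAB
    have h2 : A ∩ Bᶜ ⊆ R := by
      intro x hx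
      rw [Finset.mem_inter, Finset.mem_compl] at hx
      by_contra hxR
      have h3 := hUV (Finset.mem_sdiff.2 ⟨hx.1, hxR⟩)
      exact hx.2 (Finset.mem_sdiff.1 h3).1
    have h3 := Finset.card_le_card h2
    omega
  have hanti : IsAntichain (· ⊆ ·) ((F.biUnion G : Finset (Finset (Fin n))) : Set (Finset (Fin n))) := by
    intro U hU V hV hne hUV
    rw [Finset.mem_coe, Finset.mem_biUnion] at hU hV
    obtain ⟨A, hA, hU⟩ := hU
    obtain ⟨B, hB, hV⟩ := hV
    have hAB := key A hA B hB U hU V hV hUV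
    subst hAB
    apply hne
    apply Finset.eq_of_subset_of_card_le hUV
    rw [hG, Finset.mem_image] at hU hV
    obtain ⟨R, hR, rfl⟩ := hU
    obtain ⟨R', hR', rfl⟩ := hV
    rw [Finset.mem_powersetCard] at hR hR'
    rw [Finset.card_sdiff_of_subset hR.1, Finset.card_sdiff_of_subset hR'.1, hR.2, hR'.2]
  have hsp := hanti.sperner
  rw [Fintype.card_fin, Finset.card_biUnion] at hsp
  · refine le_trans ?_ hsp
    rw [← smul_eq_mul]
    refine Finset.card_nsmul_le_sum F _ _ fun A hA => ?_
    rw [hcard]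
    exact Nat.choose_le_choose _ (hh A hA)
  · intro A hA B hB hAB
    rw [Function.onFun, Finset.disjoint_left]
    intro U hU hU'
    exact hAB (key A hA B hB U hU U hU' (Finset.Subset.refl _))

end Pool.Agent.Run7.h198.QI
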