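import Mathlib

set_option autoImplicit false

/-!
# Families with r-fold qualitatively independent pairs: definitions and pieces
-/

namespace Pool.Agent.Run7.h198.QI

open Finset

/-- For all different members `A, B` of the family the four sets `A ∩ B`, `A ∩ Bᶜ`, `Aᶜ ∩ B`,
`Aᶜ ∩ Bᶜ` have at least `r` elements. -/
def QI (n r : ℕ) (F : Finset (Finset (Fin n))) : Prop :=
  ∀ A ∈ F, ∀ B ∈ F, A ≠ B →
    r ≤ (A ∩ B).card ∧ r ≤ (A ∩ Bᶜ).card ∧ r ≤ (Aᶜ ∩ B).card ∧ r ≤ (Aᶜ ∩ Bᶜ).card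

/-- the largest size of such a family -/
noncomputable def Mr (r n : ℕ) : ℕ := sSup {m | ∃ F : Finset (Finset (Fin n)), QI n r F ∧ F.card = m}

/-- PIECE UP1. If `|A \ B| ≥ r` for all different members of `F`, and all members have at least `h`
elements, then `|F| C(h, r-1) ≤ C(n, n/2)`.

PROOF. The sets `A \ R` with `A ∈ F`, `R ⊆ A`, `|R| = r - 1` form an antichain, and they are
different for different pairs `(A, R)`: if `A \ R ⊆ B \ R'` with `A ≠ B`, then `A \ B ⊆ R`, but
`|R| = r - 1 < r`; if `A = B` then `R' ⊆ R` and the sizes are equal. Their number is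
`∑ A, C(|A|, r-1) ≥ |F| C(h, r-1)` (`Finset.card_sigma` or `card_biUnion`), and `IsAntichain.sperner`
bounds it by `C(n, n/2)`. -/
def S_UP1 : Prop :=
  ∀ (n r h : ℕ) (F : Finset (Finset (Fin n))), 1 ≤ r → (∀ A ∈ F, h ≤ A.card) →
    (∀ A ∈ F, ∀ B ∈ F, A ≠ B → r ≤ (A ∩ Bᶜ).card) →
    F.card * h.choose (r - 1) ≤ n.choose (n / 2)

/-- PIECE UP (uses UP1 as hypothesis). UP1 with `h = (n+1)/2` for the members with `(n+1)/2 ≤ |A|`
and for the complements of the other members. -/
def S_UP : Prop :=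
  ∀ (n r : ℕ) (F : Finset (Finset (Fin n))), 1 ≤ r → QI n r F →
    F.card * ((n + 1) / 2).choose (r - 1) ≤ 2 * n.choose (n / 2)

/-- PIECE GS (construction of Graham and Sloane). For a prime `q ≥ m` there is a family of
`w`-element subsets of `Fin m` with `|A \ B| ≥ r` for different members and at least
`C(m, w) / q^(r-1)` members.

PROOF. For `A ⊆ Fin m` let `P A = ∏ a ∈ A, (X - C (a : ZMod q))`, a monic polynomial of degree `w`.
Give `A` the label `j ↦ (P A).coeff (w - 1 - j)`, `j : Fin (r-1)` (with natural subtraction). There are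
`q^(r-1)` labels, so one label has at least `C(m, w) / q^(r-1)` sets (pigeonhole). If `A ≠ B` have the
same label and `|A \ B| = |B \ A| = s < r`, then `s ≥ 1`, and `P A - P B` has degree `≤ w - r` (all
coefficients at `w - 1, ..., w - (r - 1)` vanish, `P A`, `P B` monic of degree `w`), so
`degree < w - r + 1 ≤ w - s`, but it is divisible by `P (A ∩ B)` of degree `w - s`, so it is zero. Then
`P A = P B`, and the roots give `A = B` (`Fin m → ZMod q` is injective as `m ≤ q`). (If `w < r` the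
same argument works: if `w - s < 0`... note `s ≤ w`; all coefficients below `w` vanish when
`w ≤ r - 1`.) -/
def S_GS : Prop :=
  ∀ (m w r q : ℕ), 1 ≤ r → q.Prime → m ≤ q →
    ∃ F : Finset (Finset (Fin m)), (∀ A ∈ F, A.card = w) ∧
      (∀ A ∈ F, ∀ B ∈ F, A ≠ B → r ≤ (A \ B).card) ∧ m.choose w ≤ F.card * q ^ (r - 1)

/-- PIECE EXT. Add `r` points to all members and `r` points to none. -/
def S_EXT : Prop :=
  ∀ (m r w : ℕ) (F : Finset (Finset (Fin m))), (∀ A ∈ F, A.card = w) →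
    (∀ A ∈ F, ∀ B ∈ F, A ≠ B → r ≤ (A \ B).card) →
    ∃ G : Finset (Finset (Fin (m + 2 * r))), QI (m + 2 * r) r G ∧ G.card = F.card

/-- PIECE CEN (numbers). `C(n, n/2) ≤ 4^r C(n - 2r, (n-2r)/2)` for `2 r ≤ n` (the middle binomial
coefficient at most doubles when `n` grows by one). -/
def S_CEN : Prop :=
  ∀ n r : ℕ, 2 * r ≤ n → n.choose (n / 2) ≤ 4 ^ r * (n - 2 * r).choose ((n - 2 * r) / 2)

/-- PIECE NUM (numbers). `n^(r-1) ≤ 4^(r-1) (r-1)! C((n+1)/2, r-1)` for `4 r ≤ n`
(`Nat.pow_sub_le_descFactorial`, `Nat.descFactorial_eq_factorial_mul_choose`). -/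
def S_NUM : Prop :=
  ∀ n r : ℕ, 1 ≤ r → 4 * r ≤ n →
    n ^ (r - 1) ≤ 4 ^ (r - 1) * (r - 1).factorial * ((n + 1) / 2).choose (r - 1)

end Pool.Agent.Run7.h198.QI
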